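import Pool.Agent.ZPU.StmtsB

/-!
# Squad ZPU, row HYQ: large primes are good
-/

set_option autoImplicit false

namespace Pool.Agent.ZPU.H24

open Polynomial Pool.Agent.ZPT Pool.Agent.ZP3

/-- The property holds for all primes not dividing some positive integer. -/
def Ev (P : ℕ → Prop) : Prop := ∃ m : ℕ, 1 ≤ m ∧ ∀ p : ℕ, p.Prime → ¬ p ∣ m → P p

theorem Ev.mono {P R : ℕ → Prop} (h : Ev P) (hi : ∀ p, p.Prime → P p → R p) : Ev R := by
  obtain ⟨m, hm, h⟩ := h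
  exact ⟨m, hm, fun p hp hpm => hi p hp (h p hp hpm)⟩

theorem Ev.and {P R : ℕ → Prop} (h : Ev P) (h' : Ev R) : Ev fun p => P p ∧ R p := by
  obtain ⟨m, hm, h⟩ := h
  obtain ⟨m', hm', h'⟩ := h'
  refine ⟨m * m', Nat.mul_pos hm hm', fun p hp hpm => ⟨h p hp fun hd => hpm ?_,
    h' p hp fun hd => hpm ?_⟩⟩
  · exact Dvd.dvd.mul_right hd m'
  · exact Dvd.dvd.mul_left hd m

theorem Ev.all {ι : Type} [Fintype ι] {P : ι → ℕ → Prop} (h : ∀ i, Ev (P i)) :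
    Ev fun p => ∀ i, P i p := by
  choose m hm h using h
  refine ⟨∏ i, m i, Nat.succ_le_of_lt (Finset.prod_pos fun i _ => hm i),
    fun p hp hpm i => h i p hp fun hd => hpm ?_⟩
  exact hd.trans (Finset.dvd_prod_of_mem m (Finset.mem_univ i))

theorem Ev.true' {P : ℕ → Prop} (h : ∀ p, P p) : Ev P := ⟨1, le_rfl, fun p _ _ => h p⟩

theorem Ev.imp {P : ℕ → Prop} (c : Prop) (h : c → Ev P) : Ev fun p => c → P p := by
  by_cases hc : c
  · exact (h hc).mono fun p _ hp _ => hp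
  · exact Ev.true' fun p h' => absurd h' hc

theorem ev_coeff (c : ℤ) (hc : c ≠ 0) : Ev fun p => ¬ (p : ℤ) ∣ c := by
  refine ⟨c.natAbs, Int.natAbs_pos.mpr hc, fun p _ hpm hd => hpm ?_⟩
  exact Int.natCast_dvd.mp hd

theorem ev_or {a b : ℤ} (h : a ≠ 0 ∨ b ≠ 0) : Ev fun p => ¬ (p : ℤ) ∣ a ∨ ¬ (p : ℤ) ∣ b := by
  rcases h with h | h
  · exact (ev_coeff a h).mono fun p _ hp => Or.inl hp
  · exact (ev_coeff b h).mono fun p _ hp => Or.inr hp

theorem ev_coprime (A B : ℤ[X])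
    (h : IsCoprime (A.map (Int.castRingHom ℚ)) (B.map (Int.castRingHom ℚ))) :
    Ev fun p => IsCoprime (bar p A) (bar p B) := by
  obtain ⟨u, v, huv⟩ := h
  obtain ⟨b₁, hm₁, h₁⟩ := IsLocalization.integerNormalization_spec (nonZeroDivisors ℤ) u
  obtain ⟨b₂, hm₂, h₂⟩ := IsLocalization.integerNormalization_spec (nonZeroDivisors ℤ) v
  set u₁ := IsLocalization.integerNormalization (nonZeroDivisors ℤ) u
  set v₁ := IsLocalization.integerNormalization (nonZeroDivisors ℤ) v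
  have hb₁ : b₁ ≠ 0 := nonZeroDivisors.ne_zero hm₁
  have hb₂ : b₂ ≠ 0 := nonZeroDivisors.ne_zero hm₂
  have e₁ : u₁.map (Int.castRingHom ℚ) = C (b₁ : ℚ) * u := by
    have h3 : u₁.map (algebraMap ℤ ℚ) = b₁ • u := h₁
    have h4 : (b₁ • u : ℚ[X]) = (b₁ : ℚ) • u := (Int.cast_smul_eq_zsmul ℚ b₁ u).symm
    rw [h4, smul_eq_C_mul] at h3
    exact h3
  have e₂ : v₁.map (Int.castRingHom ℚ) = C (b₂ : ℚ) * v := by
    have h3 : v₁.map (algebraMap ℤ ℚ) = b₂ • v := h₂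
    have h4 : (b₂ • v : ℚ[X]) = (b₂ : ℚ) • v := (Int.cast_smul_eq_zsmul ℚ b₂ v).symm
    rw [h4, smul_eq_C_mul] at h3
    exact h3
  have key : C b₂ * u₁ * A + C b₁ * v₁ * B = C (b₁ * b₂) := by
    apply Polynomial.map_injective (Int.castRingHom ℚ) Int.cast_injective
    rw [Polynomial.map_add, Polynomial.map_mul, Polynomial.map_mul, Polynomial.map_mul,
      Polynomial.map_mul, map_C, map_C, map_C, e₁, e₂]
    have h5 : C (Int.castRingHom ℚ (b₁ * b₂)) =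
        C (b₁ : ℚ) * C (b₂ : ℚ) := by
      rw [← C_mul, map_mul]
      rfl
    rw [h5]
    simp only [eq_intCast]
    linear_combination (C (b₁ : ℚ) * C (b₂ : ℚ)) * huv
  refine (ev_coeff (b₁ * b₂) (mul_ne_zero hb₁ hb₂)).mono ?_
  intro p hp hd
  have : Fact p.Prime := ⟨hp⟩
  have hc : Int.castRingHom (ZMod p) (b₁ * b₂) ≠ 0 := by
    intro h0
    apply hd
    rw [← ZMod.intCast_zmod_eq_zero_iff_dvd]
    exact h0
  have key' := congrArg (bar p) key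
  unfold bar at key' ⊢
  rw [Polynomial.map_add, Polynomial.map_mul (p := C b₂ * u₁), Polynomial.map_mul (p := C b₁ * v₁),
    map_C] at key'
  refine ⟨C (Int.castRingHom (ZMod p) (b₁ * b₂))⁻¹ *
    (C b₂ * u₁).map (Int.castRingHom (ZMod p)),
    C (Int.castRingHom (ZMod p) (b₁ * b₂))⁻¹ *
    (C b₁ * v₁).map (Int.castRingHom (ZMod p)), ?_⟩
  rw [mul_assoc, mul_assoc, ← mul_add, key', ← C_mul, inv_mul_cancel₀ hc, C_1]

theorem hyq : HYQStmt := by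
  intro d n D F G hD hH
  have h0 : Ev fun p => 40 * (d + 1) < p := by
    refine ⟨(40 * (d + 1)).factorial, Nat.factorial_pos _, fun p hp hpm => ?_⟩
    by_contra hle
    exact hpm ((hp.dvd_factorial).mpr (not_lt.mp hle))
  have h1 : Ev fun p => ∀ i j, ¬ (p : ℤ) ∣ (F i).coeff (D i) ∨ ¬ (p : ℤ) ∣ (G j).coeff (D j) :=
    Ev.all fun i => Ev.all fun j => ev_or (hH.cFG i j)
  have h2 : Ev fun p => ∀ i j, i ≠ j →
      ¬ (p : ℤ) ∣ (F i).coeff (D i) ∨ ¬ (p : ℤ) ∣ (F j).coeff (D j) :=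
    Ev.all fun i => Ev.all fun j => Ev.imp _ fun hij => ev_or (hH.cFF i j hij)
  have h3 : Ev fun p => ∀ i j, i ≠ j →
      ¬ (p : ℤ) ∣ (G i).coeff (D i) ∨ ¬ (p : ℤ) ∣ (G j).coeff (D j) :=
    Ev.all fun i => Ev.all fun j => Ev.imp _ fun hij => ev_or (hH.cGG i j hij)
  have h4 : Ev fun p => ∀ i j, IsCoprime (bar p (F i)) (bar p (G j)) :=
    Ev.all fun i => Ev.all fun j => ev_coprime _ _ (hH.FG i j)
  have h5 : Ev fun p => ∀ i j, i ≠ j → IsCoprime (bar p (F i)) (bar p (F j)) :=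
    Ev.all fun i => Ev.all fun j => Ev.imp _ fun hij => ev_coprime _ _ (hH.FF i j hij)
  have h6 : Ev fun p => ∀ i j, i ≠ j → IsCoprime (bar p (G i)) (bar p (G j)) :=
    Ev.all fun i => Ev.all fun j => Ev.imp _ fun hij => ev_coprime _ _ (hH.GG i j hij)
  refine (((h0.and (h1.and h2)).and (h3.and h4)).and (h5.and h6)).mono ?_
  rintro p hp ⟨⟨⟨g0, g1, g2⟩, g3, g4⟩, g5, g6⟩
  exact ⟨g0, ⟨hH.D1, hD, hH.dF, hH.dG, g1, g2, g3, g4, g5, g6⟩⟩

end Pool.Agent.ZPU.H24
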