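import Pool.Agent.ZPU.StmtsB

/-!
# Squad ZPU, row NUM: numerators
-/

set_option autoImplicit false

namespace Pool.Agent.ZPU.H24

open Polynomial Pool.Agent.ZPT Pool.Agent.ZP3

/-- The conclusion of the row for one polynomial. -/
def Pr (l : ℚ) (f g f' g' : ℤ[X]) (H : ℚ[X][X]) : Prop := ∃ (N : ℚ[X]) (E : ℕ),
  ∀ (L : Type) [Field L] [CharZero L] (t : L), aeval t g ≠ 0 → aeval t g' ≠ 0 →
    aeval t N = (aeval t g * aeval t g') ^ E *
      ev2 H ((l : L) * aeval t f / aeval t g) ((l : L) * aeval t f' / aeval t g')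

theorem pr_add (l : ℚ) (f g f' g' : ℤ[X]) (H₁ H₂ : ℚ[X][X]) (h₁ : Pr l f g f' g' H₁)
    (h₂ : Pr l f g f' g' H₂) : Pr l f g f' g' (H₁ + H₂) := by
  obtain ⟨N₁, E₁, h₁⟩ := h₁
  obtain ⟨N₂, E₂, h₂⟩ := h₂
  refine ⟨N₁ * (g.map (algebraMap ℤ ℚ) * g'.map (algebraMap ℤ ℚ)) ^ E₂ +
    N₂ * (g.map (algebraMap ℤ ℚ) * g'.map (algebraMap ℤ ℚ)) ^ E₁, E₁ + E₂, ?_⟩
  intro L _ _ t hg hg'
  have e : ∀ x y : L, ev2 (H₁ + H₂) x y = ev2 H₁ x y + ev2 H₂ x y := by
    intro x y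
    unfold ev2
    rw [Polynomial.map_add, eval_add]
  rw [map_add, map_mul, map_mul, map_pow, map_pow, map_mul, aeval_map_algebraMap,
    aeval_map_algebraMap, h₁ L t hg hg', h₂ L t hg hg', e]
  ring

theorem pr_mul (l : ℚ) (f g f' g' : ℤ[X]) (H₁ H₂ : ℚ[X][X]) (h₁ : Pr l f g f' g' H₁)
    (h₂ : Pr l f g f' g' H₂) : Pr l f g f' g' (H₁ * H₂) := by
  obtain ⟨N₁, E₁, h₁⟩ := h₁
  obtain ⟨N₂, E₂, h₂⟩ := h₂
  refine ⟨N₁ * N₂, E₁ + E₂, ?_⟩
  intro L _ _ t hg hg'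
  have e : ∀ x y : L, ev2 (H₁ * H₂) x y = ev2 H₁ x y * ev2 H₂ x y := by
    intro x y
    unfold ev2
    rw [Polynomial.map_mul, eval_mul]
  rw [map_mul, h₁ L t hg hg', h₂ L t hg hg', e]
  ring

theorem pr_const (l : ℚ) (f g f' g' : ℤ[X]) (q : ℚ) : Pr l f g f' g' (C (C q)) := by
  refine ⟨C q, 0, ?_⟩
  intro L _ _ t hg hg'
  have e : ∀ x y : L, ev2 (C (C q)) x y = (q : L) := by
    intro x y
    unfold ev2
    simp
  rw [aeval_C, pow_zero, one_mul, e]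
  simp

theorem pr_CX (l : ℚ) (f g f' g' : ℤ[X]) : Pr l f g f' g' (C X) := by
  refine ⟨C l * f.map (algebraMap ℤ ℚ) * g'.map (algebraMap ℤ ℚ), 1, ?_⟩
  intro L _ _ t hg hg'
  have e : ∀ x y : L, ev2 (C X) x y = x := by
    intro x y
    unfold ev2
    simp
  have h3 : (algebraMap ℚ L) l = (l : L) := by simp
  rw [map_mul, map_mul, aeval_C, aeval_map_algebraMap, aeval_map_algebraMap, e, h3]
  field_simp

theorem pr_X (l : ℚ) (f g f' g' : ℤ[X]) : Pr l f g f' g' X := by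
  refine ⟨C l * f'.map (algebraMap ℤ ℚ) * g.map (algebraMap ℤ ℚ), 1, ?_⟩
  intro L _ _ t hg hg'
  have e : ∀ x y : L, ev2 X x y = y := by
    intro x y
    unfold ev2
    simp
  have h3 : (algebraMap ℚ L) l = (l : L) := by simp
  rw [map_mul, map_mul, aeval_C, aeval_map_algebraMap, aeval_map_algebraMap, e, h3]
  field_simp

theorem num : NUMStmt := by
  intro H l f g f' g'
  change Pr l f g f' g' H
  have hC : ∀ a : ℚ[X], Pr l f g f' g' (C a) := by
    intro a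
    induction a using Polynomial.induction_on with
    | C q => exact pr_const l f g f' g' q
    | add p q hp hq => rw [C_add]; exact pr_add _ _ _ _ _ _ _ hp hq
    | monomial n q h =>
      rw [pow_succ, ← mul_assoc, C_mul]
      exact pr_mul _ _ _ _ _ _ _ h (pr_CX l f g f' g')
  induction H using Polynomial.induction_on with
  | C a => exact hC a
  | add p q hp hq => exact pr_add _ _ _ _ _ _ _ hp hq
  | monomial n a h =>
    rw [pow_succ, ← mul_assoc]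
    exact pr_mul _ _ _ _ _ _ _ h (pr_X l f g f' g')

end Pool.Agent.ZPU.H24
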