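import Pool.Agent.ZPU.Stmts

/-!
# Squad ZPU, row ORD: splitting off the zero at the origin
-/

set_option autoImplicit false
set_option linter.unusedSectionVars false

namespace Pool.Agent.ZPU.H24

open Polynomial Pool.Agent.ZPT Pool.Agent.ZP3 Pool.Agent.ZPU

noncomputable section

section gen

variable {K : Type} [NormedField K] [IsUltrametricDist K]

theorem evO_le (P : (OO K)[X]) (y : K) (hy : ‖y‖ ≤ 1) (b : ℝ) (hb : 0 ≤ b)
    (h : ∀ j, ‖((P.coeff j : OO K) : K)‖ ≤ b) : ‖evO P y‖ ≤ b := by
  unfold evO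
  rw [eval₂_eq_sum_range]
  refine IsUltrametricDist.norm_sum_le_of_forall_le_of_nonneg hb fun i _ => ?_
  rw [norm_mul, norm_pow]
  exact (mul_le_of_le_one_right (norm_nonneg _) (pow_le_one₀ (norm_nonneg _) hy)).trans (h i)

theorem evO_sub (P S : (OO K)[X]) (y : K) : evO (P - S) y = evO P y - evO S y := by
  unfold evO
  rw [eval₂_sub]

theorem evO_XS (S : (OO K)[X]) (n : ℕ) (y : K) : evO (X ^ n * S) y = y ^ n * evO S y := by
  unfold evO
  rw [eval₂_mul, eval₂_X_pow]

theorem evO_diff (S : (OO K)[X]) (y : K) (hy : ‖y‖ ≤ 1) : ‖evO S y - evO S 0‖ ≤ ‖y‖ := by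
  have h1 : ∀ z : K, evO S z = evO (divX S) z * z + ((S.coeff 0 : OO K) : K) := by
    intro z
    have h2 : evO (divX S * X + C (S.coeff 0)) z = evO S z := by rw [divX_mul_X_add S]
    rw [← h2]
    unfold evO
    rw [eval₂_add, eval₂_mul, eval₂_X, eval₂_C]
    rfl
  rw [h1 y, h1 0, mul_zero, zero_add, add_sub_cancel_right, norm_mul]
  exact mul_le_of_le_one_left (norm_nonneg _)
    (evO_le (divX S) y hy 1 zero_le_one fun j => ((divX S).coeff j).2)

theorem coeff_divX_iter (P : (OO K)[X]) (n j : ℕ) : (divX^[n] P).coeff j = P.coeff (j + n) := by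
  induction n generalizing j with
  | zero => rfl
  | succ n ih =>
    rw [Function.iterate_succ_apply', coeff_divX, ih]
    congr 1
    omega

end gen

theorem ord (hU : URRStmt) : ORDStmt := by
  intro p hp K _ _ _ hE k _ r hr P hP hP0
  obtain ⟨_, _, _, hU4, _⟩ := hU p hp K hE
  set n := (P.map r).natTrailingDegree with hn
  set S : (OO K)[X] := divX^[n] P with hS
  have hSc : ∀ j, S.coeff j = P.coeff (j + n) := fun j => coeff_divX_iter P n j
  have hlow : ∀ d, d < n → r (P.coeff d) = 0 := by
    intro d hd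
    rw [← coeff_map]
    exact coeff_eq_zero_of_lt_natTrailingDegree hd
  have hp0 : (0 : ℝ) ≤ (p : ℝ)⁻¹ := by positivity
  have hS0 : (S.map r).coeff 0 ≠ 0 := by
    rw [coeff_map, hSc, zero_add, ← coeff_map]
    exact coeff_natTrailingDegree_ne_zero.mpr hP0
  refine ⟨n, S, natTrailingDegree_le_natDegree _, ?_, ?_, hS0, ?_⟩
  · intro j
    rw [hSc]
    exact hP _
  · ext d
    rw [coeff_X_pow_mul', coeff_map]
    split_ifs with h
    · rw [coeff_map, hSc, Nat.sub_add_cancel h]
    · exact hlow d (not_le.mp h)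
  · intro y hy
    have hd := evO_diff S y hy.le
    refine ⟨?_, ?_, hd⟩
    · rw [← evO_XS, ← evO_sub]
      apply evO_le _ y hy.le _ hp0
      intro j
      rw [coeff_sub, coeff_X_pow_mul']
      split_ifs with h
      · rw [hSc, Nat.sub_add_cancel h, sub_self]
        simp
      · rw [sub_zero]
        exact hU4 _ (hP j) ((hr _).mp (hlow j (not_le.mp h)))
    · have h1 : ‖((S.coeff 0 : OO K) : K)‖ = 1 := by
        apply le_antisymm (S.coeff 0).2
        by_contra hlt
        apply hS0
        rw [coeff_map]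
        exact (hr _).mpr (not_le.mp hlt)
      have h2 : evO S 0 = ((S.coeff 0 : OO K) : K) := by
        unfold evO
        rw [eval₂_at_zero]
        rfl
      have h3 : evO S y = (evO S y - evO S 0) + evO S 0 := by ring
      have h4 : ‖evO S y - evO S 0‖ < ‖evO S 0‖ := by
        have h6 : ‖evO S 0‖ = 1 := by rw [h2, h1]
        rw [h6]
        exact hd.trans_lt hy
      have h5 := IsUltrametricDist.norm_add_eq_max_of_norm_ne_norm
        (x := evO S y - evO S 0) (y := evO S 0) h4.ne
      rw [← h3, max_eq_right h4.le] at h5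
      rw [h5, h2, h1]

end

end Pool.Agent.ZPU.H24
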