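import Pool.Agent.ZPU.Stmts
import Pool.Agent.Helper51_ZP3.Near

/-!
# Squad ZPU, row REL: approximations of elements of norm 1
-/

set_option autoImplicit false

namespace Pool.Agent.ZPU.H24

open Polynomial Pool.Agent.ZPT Pool.Agent.ZP3
open Pool.Agent.ZP3.H51 (add_le' mul_near pow_near norm_p)

theorem rel : RELStmt := by
  intro p hp K _ _ _ hE x x' y y' hx hx' hy hy' ε h1 h2
  have hε : 0 ≤ ε := (norm_nonneg _).trans h1
  refine ⟨mul_near hx.le hy'.le h1 h2, ?_, fun n => (pow_near hx.le hx'.le n).trans h1, ?_⟩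
  · have hy0 : y ≠ 0 := by rw [← norm_ne_zero_iff, hy]; exact one_ne_zero
    have hy0' : y' ≠ 0 := by rw [← norm_ne_zero_iff, hy']; exact one_ne_zero
    have h3 : x / y - x' / y' = (x * y' - x' * y) / (y * y') := by
      field_simp
    rw [h3, norm_div, norm_mul y y', hy, hy', mul_one, div_one]
    exact mul_near hx.le hy.le h1 (by rw [norm_sub_rev]; exact h2)
  · intro hε1 hp1
    have h3 : x ^ p - x' ^ p = ∑ i ∈ Finset.range p,
        (x - x') ^ (i + 1) * x' ^ (p - (i + 1)) * ((p.choose (i + 1) : ℕ) : K) := by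
      have h4 := add_pow (x - x') x' p
      rw [sub_add_cancel, Finset.sum_range_succ'] at h4
      rw [h4]
      simp
    rw [h3]
    refine IsUltrametricDist.norm_sum_le_of_forall_le_of_nonneg (by positivity) fun i hi => ?_
    have hi' : i < p := Finset.mem_range.mp hi
    rw [norm_mul, norm_mul, norm_pow, norm_pow, hx', one_pow, mul_one]
    have h5 : ‖x - x'‖ ^ (i + 1) ≤ ε ^ (i + 1) := pow_le_pow_left₀ (norm_nonneg _) h1 _
    by_cases hip : i + 1 = p
    · rw [hip, Nat.choose_self, Nat.cast_one, norm_one, mul_one, ← hip]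
      exact h5
    · have h6 : ‖((p.choose (i + 1) : ℕ) : K)‖ ≤ (p : ℝ)⁻¹ := by
        obtain ⟨m, hm⟩ := hp.dvd_choose_self (k := i + 1) (by omega) (by omega)
        rw [hm, Nat.cast_mul, norm_mul, norm_p hp hE]
        exact mul_le_of_le_one_right (by positivity) (IsUltrametricDist.norm_natCast_le_one K m)
      have h7 : ε ^ (i + 1) ≤ ε := by
        calc ε ^ (i + 1) ≤ ε ^ 1 := pow_le_pow_of_le_one hε hε1.le (by omega)
          _ = ε := pow_one ε
      calc ‖x - x'‖ ^ (i + 1) * ‖((p.choose (i + 1) : ℕ) : K)‖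
          ≤ ε * ε ^ (p - 1) :=
            mul_le_mul (h5.trans h7) (h6.trans hp1) (norm_nonneg _) hε
        _ = ε ^ p := by
            rw [← pow_succ', Nat.sub_add_cancel hp.one_le]

end Pool.Agent.ZPU.H24
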