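import Pool.Agent.ZPU.StmtsB

/-!
# Squad ZPU, row RFL: reversed polynomials of coprime polynomials
-/

set_option autoImplicit false

namespace Pool.Agent.ZPU.H24

open Polynomial

theorem reflect_root {k L : Type} [Field k] [Field L] (i : k →+* L) (N : ℕ) (f : k[X])
    (hf : f.natDegree ≤ N) (a : L) (ha : a ≠ 0) (h : eval₂ i a (reflect N f) = 0) :
    eval₂ i a⁻¹ f = 0 := by
  have hi : a⁻¹ ≠ 0 := inv_ne_zero ha
  letI : Invertible (a⁻¹) := invertibleOfNonzero hi
  have h1 := eval₂_reflect_mul_pow i a⁻¹ N f hf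
  have h2 : ⅟(a⁻¹) = a := by
    rw [invOf_eq_inv, inv_inv]
  rw [h2, h, zero_mul] at h1
  exact h1.symm

theorem rflRow : RFLStmt := by
  intro k _ N M f g hf hg hc hd
  rw [isCoprime_iff_aeval_ne_zero_of_isAlgClosed k (AlgebraicClosure k)] at hc ⊢
  intro a
  by_cases ha : a = 0
  · subst ha
    have h1 : ∀ p : k[X], aeval (0 : AlgebraicClosure k) p =
        algebraMap k (AlgebraicClosure k) (p.coeff 0) := by
      intro p
      rw [aeval_def, eval₂_at_zero]
    rw [h1, h1, coeff_reflect, coeff_reflect, revAt_le (Nat.zero_le _), revAt_le (Nat.zero_le _),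
      Nat.sub_zero, Nat.sub_zero]
    rcases hd with h | h
    · left
      exact (_root_.map_ne_zero _).mpr h
    · right
      exact (_root_.map_ne_zero _).mpr h
  · rcases hc a⁻¹ with h | h
    · left
      intro h0
      exact h (reflect_root (algebraMap k (AlgebraicClosure k)) N f hf a ha h0)
    · right
      intro h0
      exact h (reflect_root (algebraMap k (AlgebraicClosure k)) M g hg a ha h0)

end Pool.Agent.ZPU.H24
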